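import Pool.Agent.H87.QP.Targets
import Pool.Agent.H40.ES.BK

/-!
Row BKH of the board qp: the levels on one block of integers (MP_c59857_nt).
-/

set_option autoImplicit false

namespace Pool.Agent.H27.QP

open Finset Pool.Agent.H18.MR Pool.Agent.H93.DE Pool.Agent.H6.N4D Pool.Agent.H93
  Pool.Agent.H93.ES Pool.Agent.H28.NW Pool.Agent.H87.QP Pool.Agent.H40.ES

private lemma tq_le3 {lam : ℕ → ℝ} (hl : ∀ n, 1 ≤ n → lam n = 1 ∨ lam n = -1) {q T : ℕ}
    (h n : ℕ) (hq : 1 ≤ q) (hqT : q ≤ T) : tq lam q T h n ^ 2 ≤ 3 ^ 2 := by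
  have hT : (0 : ℝ) < T := by
    have : 0 < T := by omega
    exact_mod_cast this
  have habs : ∀ m, 1 ≤ m → |lam m| = 1 := by
    intro m hm
    rcases hl m hm with h | h <;> rw [h] <;> norm_num
  have h1 : |tq lam q T h n| ≤ 3 := by
    unfold tq
    rw [abs_div, Nat.abs_cast, div_le_iff₀ hT]
    refine (abs_sum_le_sum_abs _ _).trans ((sum_le_sum fun m hm => ?_).trans
      (D_sum q n T hq hqT))
    have h2 := (mem_Ioc.1 hm).1
    rw [abs_mul, abs_mul, habs m (by omega), habs (m + q * h) (by omega), one_mul, one_mul]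
  rw [← sq_abs]
  exact pow_le_pow_left₀ (abs_nonneg _) h1 2

theorem pf_BKH (hC : T_CYH) (hW : T_WIH) (hQ : T_QSU) : T_BKH := by
  intro h
  obtain ⟨C, w₀, hC0, hC⟩ := hC h
  obtain ⟨W, hW0, hQ⟩ := hQ
  refine ⟨C + 9 * W * (h + 1), w₀, by positivity, ?_⟩
  intro N K i _ lam w hi hl hw0 hw hN
  have hNpos : 0 < N := NeZero.pos N
  have hN0 : (0 : ℝ) < N := by exact_mod_cast hNpos
  have hiN : 1 ≤ i * N := Nat.mul_pos hi hNpos
  have hA := hC N K (blk lam N i) w hw0 hw hN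
  have hlev : ∀ j ∈ range K, (∑ k ∈ range N, ∑ q ∈ EB.QQ (w j), 1 / (q : ℝ) *
      tq lam q (2 ^ w j) h (i * N + k) ^ 2) / (N : ℝ) ≤
      avZ (fun n => ∑ q ∈ EB.QQ (w j), 1 / (q : ℝ) *
        ‖wm (fh (ltr (blk lam N i) n) q h) (w j) (kA q n.val 0)‖ ^ 2) +
        9 * W * (((h + 1) * 2 ^ w j : ℕ) : ℝ) / N := by
    intro j hj
    have hj' := mem_range.1 hj
    refine blk_sum ((h + 1) * 2 ^ w j) _ _ (9 * W) (by positivity) ?_ ?_ ?_ ?_
    · intro k _
      calc ∑ q ∈ EB.QQ (w j), 1 / (q : ℝ) * tq lam q (2 ^ w j) h (i * N + k) ^ 2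
          ≤ ∑ q ∈ EB.QQ (w j), 1 / (q : ℝ) * 3 ^ 2 := by
            refine sum_le_sum fun q hq => ?_
            obtain ⟨h1, h2, -⟩ := QQ_facts hq
            have h3 := tq_le3 hl h (i * N + k) h1 h2
            exact mul_le_mul_of_nonneg_left h3 (by positivity)
        _ = 9 * ∑ q ∈ EB.QQ (w j), 1 / (q : ℝ) := by
            rw [← sum_mul]
            ring
        _ ≤ _ := by
            have := hQ (w j)
            linarith
    · intro n
      exact sum_nonneg fun q _ => by positivity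
    · intro k hk
      refine sum_le_sum fun q hq => ?_
      obtain ⟨h1, h2, h3⟩ := QQ_facts hq
      have hp : 1 ≤ 2 ^ w j := Nat.one_le_two_pow
      have hqh : q * h ≤ 2 ^ w j * h := Nat.mul_le_mul_right h h2
      have e1 : (h + 1) * 2 ^ w j = 2 ^ w j * h + 2 ^ w j := by ring
      have hv : ((k + 1 : ℕ) : ZMod N).val = k + 1 := ZMod.val_natCast_of_lt (by omega)
      have h4 := hW N (w j) i q h lam ((k + 1 : ℕ) : ZMod N) hi hl h1 (h3 N (hN j hj'))
        (by rw [hv]; omega)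
      rw [hv] at h4
      have h5 : i * N + (k + 1) - 1 = i * N + k := by omega
      rw [h5] at h4
      rw [hv, ← h4, sq_abs]
    · exact Nat.mul_pos (Nat.succ_pos h) (Nat.two_pow_pos _)
  refine (sum_le_sum hlev).trans ?_
  rw [sum_add_distrib]
  have h6 : ∑ j ∈ range K, 9 * W * (((h + 1) * 2 ^ w j : ℕ) : ℝ) / N =
      9 * W * (h + 1) * ((∑ j ∈ range K, (2 : ℝ) ^ w j) / (N : ℝ)) := by
    rw [sum_div, mul_sum]
    refine sum_congr rfl fun j _ => ?_
    push_cast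
    ring
  rw [h6]
  have h7 : 0 ≤ (∑ j ∈ range K, (2 : ℝ) ^ w j) / (N : ℝ) := by positivity
  have h8 : (0 : ℝ) ≤ 9 * W * (h + 1) := by positivity
  nlinarith [mul_nonneg hC0.le h7]

end Pool.Agent.H27.QP
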